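import Mathlib
import Pool.Agent.U180.NG.Stm

/-!
# Package ANN: lattice points in an annulus
-/

set_option autoImplicit false

namespace Pool.Agent.U660.NG

open Pool.Agent.U180.NG

lemma key_aux {r R a b m : ℝ} (ha : 0 ≤ a) (hab : a ≤ b) (hma : m ^ 2 ≤ a ^ 2)
    (hmb : m ^ 2 ≤ b ^ 2)
    (h1 : |Real.sqrt (a ^ 2 + m ^ 2) - R| ≤ r) (h2 : |Real.sqrt (b ^ 2 + m ^ 2) - R| ≤ r) :
    b - a ≤ 3 * r := by
  set s := Real.sqrt (a ^ 2 + m ^ 2) with hs
  set t := Real.sqrt (b ^ 2 + m ^ 2) with ht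
  have hb : 0 ≤ b := ha.trans hab
  have hs0 : 0 ≤ s := Real.sqrt_nonneg _
  have ht0 : 0 ≤ t := Real.sqrt_nonneg _
  have hs2 : s ^ 2 = a ^ 2 + m ^ 2 := Real.sq_sqrt (by positivity)
  have ht2 : t ^ 2 = b ^ 2 + m ^ 2 := Real.sq_sqrt (by positivity)
  have hr : 0 ≤ r := (abs_nonneg _).trans h1
  rw [abs_le] at h1 h2
  have hts : t - s ≤ 2 * r := by linarith [h1.1, h2.2]
  have hsa : s ≤ 3 / 2 * a := by
    apply Real.sqrt_le_iff.mpr
    constructor
    · positivity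
    · nlinarith
  have htb : t ≤ 3 / 2 * b := by
    apply Real.sqrt_le_iff.mpr
    constructor
    · positivity
    · nlinarith
  rcases eq_or_lt_of_le (add_nonneg ha hb) with h0 | hpos
  · have : b = 0 := by linarith
    have : a = 0 := by linarith
    linarith
  · have h3 : (b - a) * (a + b) = (t - s) * (t + s) := by nlinarith
    have h4 : (t - s) * (t + s) ≤ 2 * r * (t + s) :=
      mul_le_mul_of_nonneg_right hts (by positivity)
    have h5 : 2 * r * (t + s) ≤ 2 * r * (3 / 2 * (a + b)) :=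
      mul_le_mul_of_nonneg_left (by linarith) (by positivity)
    have h6 : (b - a) * (a + b) ≤ (3 * r) * (a + b) := by
      rw [h3]
      refine (h4.trans h5).trans (le_of_eq ?_)
      ring
    exact le_of_mul_le_mul_right h6 hpos

lemma key {r R a b m : ℝ} (ha : 0 ≤ a) (hb : 0 ≤ b) (hma : m ^ 2 ≤ a ^ 2)
    (hmb : m ^ 2 ≤ b ^ 2)
    (h1 : |Real.sqrt (a ^ 2 + m ^ 2) - R| ≤ r) (h2 : |Real.sqrt (b ^ 2 + m ^ 2) - R| ≤ r) :
    |a - b| ≤ 3 * r := by
  rcases le_total a b with h | h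
  · rw [abs_sub_comm, abs_of_nonneg (by linarith)]
    exact key_aux ha h hma hmb h1 h2
  · rw [abs_of_nonneg (by linarith)]
    exact key_aux hb h hmb hma h2 h1

/-- two integers of the same sign, in the annulus with the same smaller coordinate, which agree
modulo `K > 3 r`, are equal -/
lemma key_int {r R : ℝ} {K : ℕ} (hK : 3 * r < K) {n n' m : ℤ} (hmn : |m| ≤ |n|)
    (hmn' : |m| ≤ |n'|) (hsg : (0 ≤ n ↔ 0 ≤ n'))
    (h1 : |Real.sqrt ((n : ℝ) ^ 2 + (m : ℝ) ^ 2) - R| ≤ r)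
    (h2 : |Real.sqrt ((n' : ℝ) ^ 2 + (m : ℝ) ^ 2) - R| ≤ r)
    (hmod : n % (K : ℤ) = n' % (K : ℤ)) : n = n' := by
  have c1 : (m : ℝ) ^ 2 ≤ |(n : ℝ)| ^ 2 := by
    rw [sq_abs]
    exact_mod_cast sq_le_sq.mpr hmn
  have c2 : (m : ℝ) ^ 2 ≤ |(n' : ℝ)| ^ 2 := by
    rw [sq_abs]
    exact_mod_cast sq_le_sq.mpr hmn'
  have h3 := key (r := r) (R := R) (abs_nonneg (n : ℝ)) (abs_nonneg (n' : ℝ)) c1 c2
    (by rw [sq_abs]; exact h1) (by rw [sq_abs]; exact h2)
  have h4 : |(n : ℝ)| - |(n' : ℝ)| = (n : ℝ) - n' ∨ |(n : ℝ)| - |(n' : ℝ)| = -((n : ℝ) - n') := by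
    rcases le_or_gt 0 n with h | h
    · have h' := hsg.mp h
      left
      rw [abs_of_nonneg (by exact_mod_cast h), abs_of_nonneg (by exact_mod_cast h')]
    · have h' : n' < 0 := by
        by_contra hc
        push Not at hc
        exact absurd (hsg.mpr hc) (not_le.mpr h)
      right
      rw [abs_of_neg (by exact_mod_cast h), abs_of_neg (by exact_mod_cast h')]
      ring
  have h5 : |(n : ℝ) - n'| ≤ 3 * r := by
    rcases h4 with h4 | h4
    · rwa [h4] at h3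
    · rwa [h4, abs_neg] at h3
  have h6 : |((n - n' : ℤ) : ℝ)| < K := by
    push_cast
    linarith
  have h7 : |n - n'| < (K : ℤ) := by exact_mod_cast h6
  have h8 : (K : ℤ) ∣ n - n' := by
    have := Int.ModEq.dvd (show n' ≡ n [ZMOD K] from hmod.symm)
    exact this
  have h9 := Int.eq_zero_of_abs_lt_dvd h8 h7
  linarith

/-- **Package ANN.** -/
theorem t_ANN (_ : S_EM) : S_ANN := by
  intro r hr
  obtain ⟨K, hK⟩ := exists_nat_gt (3 * r)
  have hK0 : 0 < K := by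
    have : (0 : ℝ) < K := lt_of_le_of_lt (by positivity) hK
    exact_mod_cast this
  refine ⟨4 * (2 * r + 3) * K, by positivity, fun R B hR => ?_⟩
  set M : ℤ := ⌊R + r⌋ with hM
  have hM0 : 0 ≤ M := Int.floor_nonneg.mpr (by linarith)
  let T : Finset (Bool × Bool × ℤ × ℤ) :=
    Finset.univ ×ˢ Finset.univ ×ˢ Finset.Icc (-M) M ×ˢ Finset.Ico 0 (K : ℤ)
  let F : ℤ × ℤ → Bool × Bool × ℤ × ℤ := fun z =>
    if |z.2| ≤ |z.1| then (true, decide (0 ≤ z.1), z.2, z.1 % (K : ℤ))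
    else (false, decide (0 ≤ z.2), z.1, z.2 % (K : ℤ))
  have hle : ∀ z ∈ ann r R B, |z.1| ≤ M ∧ |z.2| ≤ M ∧
      |Real.sqrt ((z.1 : ℝ) ^ 2 + (z.2 : ℝ) ^ 2) - R| ≤ r := by
    intro z hz
    have h1 : |Real.sqrt ((z.1 : ℝ) ^ 2 + (z.2 : ℝ) ^ 2) - R| ≤ r := (Finset.mem_filter.mp hz).2
    have h2 : Real.sqrt ((z.1 : ℝ) ^ 2 + (z.2 : ℝ) ^ 2) ≤ R + r := by
      have := (abs_le.mp h1).2
      linarith
    refine ⟨?_, ?_, h1⟩
    · rw [hM, Int.le_floor]
      push_cast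
      refine le_trans ?_ h2
      rw [← Real.sqrt_sq_eq_abs]
      exact Real.sqrt_le_sqrt (by nlinarith [sq_nonneg (z.2 : ℝ)])
    · rw [hM, Int.le_floor]
      push_cast
      refine le_trans ?_ h2
      rw [← Real.sqrt_sq_eq_abs]
      exact Real.sqrt_le_sqrt (by nlinarith [sq_nonneg (z.1 : ℝ)])
  have hKz : (0 : ℤ) < K := by exact_mod_cast hK0
  have hmaps : ∀ z ∈ ann r R B, F z ∈ T := by
    intro z hz
    obtain ⟨h1, h2, -⟩ := hle z hz
    simp only [F, T]
    split_ifs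
    · simp only [Finset.mem_product, Finset.mem_univ, true_and, Finset.mem_Icc, Finset.mem_Ico]
      exact ⟨abs_le.mp h2, Int.emod_nonneg _ hKz.ne', Int.emod_lt_of_pos _ hKz⟩
    · simp only [Finset.mem_product, Finset.mem_univ, true_and, Finset.mem_Icc, Finset.mem_Ico]
      exact ⟨abs_le.mp h1, Int.emod_nonneg _ hKz.ne', Int.emod_lt_of_pos _ hKz⟩
  have hinj : Set.InjOn F (ann r R B : Set (ℤ × ℤ)) := by
    intro z hz z' hz' hF
    obtain ⟨-, -, h3⟩ := hle z hz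
    obtain ⟨-, -, h3'⟩ := hle z' hz'
    simp only [F] at hF
    split_ifs at hF with c c' c'
    · simp only [Prod.mk.injEq, decide_eq_decide, true_and] at hF
      obtain ⟨hs, hm, hmod⟩ := hF
      have := key_int hK (n := z.1) (n' := z'.1) (m := z.2) c (by rw [hm]; exact c') hs h3
        (by rw [hm]; exact h3') hmod
      exact Prod.ext this hm
    · simp at hF
    · simp at hF
    · simp only [Prod.mk.injEq, decide_eq_decide, true_and] at hF
      obtain ⟨hs, hm, hmod⟩ := hF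
      push Not at c c'
      have := key_int hK (n := z.2) (n' := z'.2) (m := z.1) c.le (by rw [hm]; exact c'.le) hs
        (by rw [add_comm]; exact h3)
        (by rw [hm, add_comm]; exact h3') hmod
      exact Prod.ext hm this
  have hcard := Finset.card_le_card_of_injOn F hmaps hinj
  have hT : T.card = 2 * (2 * ((2 * M + 1).toNat * K)) := by
    simp only [T, Finset.card_product, Finset.card_univ, Fintype.card_bool, Int.card_Icc,
      Int.card_Ico, sub_zero, Int.toNat_natCast]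
    congr 4
    ring
  have h1 : ((ann r R B).card : ℝ) ≤ 2 * (2 * ((2 * (M : ℝ) + 1) * K)) := by
    have h2 : ((ann r R B).card : ℝ) ≤ (T.card : ℝ) := by exact_mod_cast hcard
    rw [hT] at h2
    push_cast at h2
    have h3 : (((2 * M + 1).toNat : ℕ) : ℝ) = 2 * (M : ℝ) + 1 := by
      have h4 : (((2 * M + 1).toNat : ℕ) : ℤ) = 2 * M + 1 := Int.toNat_of_nonneg (by omega)
      exact_mod_cast h4
    rwa [h3] at h2
  have h2 : (M : ℝ) ≤ R + r := Int.floor_le _
  have hKr : (0 : ℝ) < K := by exact_mod_cast hK0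
  calc ((ann r R B).card : ℝ) ≤ 2 * (2 * ((2 * (M : ℝ) + 1) * K)) := h1
    _ ≤ 2 * (2 * (((2 * r + 3) * R) * K)) := by
        have : 2 * (M : ℝ) + 1 ≤ (2 * r + 3) * R := by nlinarith
        gcongr
    _ = 4 * (2 * r + 3) * K * R := by ring

end Pool.Agent.U660.NG
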